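import Mathlib

open MeasureTheory Set Filter Topology
open scoped Pointwise

set_option linter.unusedSectionVars false

namespace Pool.Agent.Results.MP_ee4cf4_an.CosSquare

/-- `J` is `ℝ`, a closed half-line `[α,∞)` or an open half-line `(α,∞)`. -/
def Admissible (J : Set ℝ) : Prop := J = univ ∨ ∃ α : ℝ, J = Ici α ∨ J = Ioi α

section defs
variable {X : Type*} [NormedAddCommGroup X] [NormedSpace ℝ X]

/-- `u` (restricted to `J`) is bounded and uniformly continuous on `J`. -/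
def IsBUC (J : Set ℝ) (u : ℝ → X) : Prop :=
  UniformContinuousOn u J ∧ ∃ C : ℝ, ∀ t ∈ J, ‖u t‖ ≤ C

/-- `g` belongs to `BUC(J,X) + cos(t^2) BUC(J,X)`. -/
def IsACos (J : Set ℝ) (g : ℝ → X) : Prop :=
  ∃ u v : ℝ → X, IsBUC J u ∧ IsBUC J v ∧ ∀ t ∈ J, g t = u t + Real.cos (t ^ 2) • v t

/-- Bochner integrable on every compact subinterval of `J`. -/
def IsL1loc (J : Set ℝ) (f : ℝ → X) : Prop :=
  ∀ a ∈ J, ∀ b ∈ J, IntegrableOn f (Icc a b) volume

/-- Bochner measurable on `J` and bounded everywhere on `J`. -/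
def IsLinf (J : Set ℝ) (f : ℝ → X) : Prop :=
  AEStronglyMeasurable f (volume.restrict J) ∧ ∃ C : ℝ, ∀ t ∈ J, ‖f t‖ ≤ C

/-- Property `(Δ)` of a class `A` of functions on `J`. -/
def SatDelta (J : Set ℝ) (A : (ℝ → X) → Prop) : Prop :=
  ∀ f : ℝ → X, IsL1loc J f → (∀ a : ℝ, 0 < a → A (fun t => f (t + a) - f t)) →
    ∀ h : ℝ, 0 < h → A (fun t => f t - (1 / h) • ∫ s in t..(t + h), f s)

/-- Property `(L_b)` of a class `A` of functions on `J`. -/
def SatLb (J : Set ℝ) (A : (ℝ → X) → Prop) : Prop :=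
  ∀ f : ℝ → X, IsLinf J f → (∀ a : ℝ, 0 < a → A (fun t => f (t + a) - f t)) → A f

end defs

variable {X : Type*} [NormedAddCommGroup X] [NormedSpace ℝ X] {J : Set ℝ}

lemma adm_up (hJ : Admissible J) {t s : ℝ} (ht : t ∈ J) (hts : t ≤ s) : s ∈ J := by
  rcases hJ with rfl | ⟨α, rfl | rfl⟩
  · trivial
  · exact le_trans (show α ≤ t from ht) hts
  · exact lt_of_lt_of_le (show α < t from ht) hts

lemma adm_far (hJ : Admissible J) : J = univ ∨ ∃ α : ℝ, Ioi α ⊆ J ∧ ∀ t ∈ J, α ≤ t := by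
  rcases hJ with rfl | ⟨α, rfl | rfl⟩
  · exact Or.inl rfl
  · exact Or.inr ⟨α, Ioi_subset_Ici_self, fun t ht => ht⟩
  · exact Or.inr ⟨α, subset_rfl, fun t ht => le_of_lt ht⟩

/-- the filter `|t| → ∞, t ∈ J`. -/
def FJ (J : Set ℝ) : Filter ℝ := comap (fun t : ℝ => |t|) atTop ⊓ 𝓟 J

lemma ev_FJ {p : ℝ → Prop} :
    (∀ᶠ t in FJ J, p t) ↔ ∃ T : ℝ, ∀ t ∈ J, T ≤ |t| → p t := by
  unfold FJ
  rw [eventually_inf_principal, eventually_comap]
  constructor
  · intro h
    obtain ⟨T, hT⟩ := eventually_atTop.1 h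
    exact ⟨T, fun t ht hTt => hT _ hTt t rfl ht⟩
  · rintro ⟨T, hT⟩
    exact eventually_atTop.2 ⟨T, fun b hb t htb ht => hT t ht (by rw [htb]; exact hb)⟩

lemma ev_mem : ∀ᶠ t in FJ J, t ∈ J := ev_FJ.2 ⟨0, fun _ ht _ => ht⟩

lemma abs_atTop : Tendsto (fun t : ℝ => |t|) (FJ J) atTop :=
  tendsto_comap.mono_left inf_le_left

lemma ev_sub (hJ : Admissible J) (a : ℝ) : ∀ᶠ t in FJ J, t - a ∈ J := by
  rcases adm_far hJ with rfl | ⟨α, h1, h2⟩
  · exact Eventually.of_forall fun _ => trivial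
  · refine ev_FJ.2 ⟨|α| + 1 + |a|, fun t ht hT => h1 ?_⟩
    have h3 := h2 t ht
    have h4 := neg_abs_le α
    have h5 := le_abs_self α
    have h6 := le_abs_self a
    have h7 := abs_nonneg a
    rcases abs_cases t with ⟨h8, h9⟩ | ⟨h8, h9⟩
    · show α < t - a
      linarith
    · exfalso
      linarith

lemma tendsto_sub_FJ (hJ : Admissible J) (a : ℝ) : Tendsto (fun t : ℝ => t - a) (FJ J) (FJ J) := by
  have h1 : Tendsto (fun t : ℝ => |t - a|) (FJ J) atTop := by
    refine tendsto_atTop_mono (fun t => ?_) (tendsto_atTop_add_const_right _ (-|a|) abs_atTop)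
    have := abs_sub_abs_le_abs_sub t a
    linarith
  refine tendsto_inf.2 ⟨tendsto_comap_iff.2 h1, tendsto_principal.2 (ev_sub hJ a)⟩

/-- moves `t` away from `0` so that the square grows by `s` -/
noncomputable def sg (s t : ℝ) : ℝ := if 0 ≤ t then √(t ^ 2 + s) else -√(t ^ 2 + s)

lemma sg_sq {s : ℝ} (hs : 0 ≤ s) (t : ℝ) : (sg s t) ^ 2 = t ^ 2 + s := by
  have h : 0 ≤ t ^ 2 + s := by positivity
  unfold sg
  split_ifs
  · exact Real.sq_sqrt h
  · rw [neg_sq]; exact Real.sq_sqrt h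

lemma sg_mem (hJ : Admissible J) {s : ℝ} (hs : 0 ≤ s) : ∀ᶠ t in FJ J, sg s t ∈ J := by
  rcases adm_far hJ with rfl | ⟨α, h1, h2⟩
  · exact Eventually.of_forall fun _ => trivial
  · refine ev_FJ.2 ⟨|α| + 1, fun t ht hT => ?_⟩
    have h3 := h2 t ht
    have h4 := neg_abs_le α
    have h5 := abs_nonneg α
    have h9 : 0 ≤ t := by
      by_contra hneg
      push Not at hneg
      rw [abs_of_neg hneg] at hT
      linarith
    unfold sg
    rw [if_pos h9]
    refine adm_up hJ ht (Real.le_sqrt_of_sq_le ?_)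
    linarith

lemma sg_sub {s : ℝ} (hs : 0 ≤ s) : Tendsto (fun t => sg s t - t) (FJ J) (𝓝 0) := by
  have h1 : Tendsto (fun t : ℝ => s / |t|) (FJ J) (𝓝 0) := abs_atTop.const_div_atTop s
  refine squeeze_zero_norm' ?_ h1
  have hpos : ∀ᶠ t in FJ J, 0 < |t| := abs_atTop.eventually_gt_atTop 0
  filter_upwards [hpos] with t ht
  have h2 : |sg s t - t| = √(t ^ 2 + s) - |t| := by
    have h3 : |t| ≤ √(t ^ 2 + s) := Real.le_sqrt_of_sq_le (by rw [sq_abs]; linarith)
    unfold sg
    split_ifs with h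
    · rw [abs_of_nonneg h] at h3 ⊢
      rw [abs_of_nonneg (by linarith)]
    · push Not at h
      rw [abs_of_neg h] at h3 ⊢
      rw [abs_of_nonpos (by linarith)]
      ring
  rw [Real.norm_eq_abs, h2, le_div_iff₀ ht]
  have h4 : (√(t ^ 2 + s)) ^ 2 = t ^ 2 + s := Real.sq_sqrt (by positivity)
  have h5 : |t| ^ 2 = t ^ 2 := sq_abs t
  have h6 : |t| ≤ √(t ^ 2 + s) := Real.le_sqrt_of_sq_le (by rw [sq_abs]; linarith)
  nlinarith [abs_nonneg t]

lemma uc_shift {E : Type*} [SeminormedAddCommGroup E] {g : ℝ → E} (hg : UniformContinuousOn g J)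
    {σ : ℝ → ℝ} (h1 : ∀ᶠ t in FJ J, σ t ∈ J) (h2 : Tendsto (fun t => σ t - t) (FJ J) (𝓝 0)) :
    Tendsto (fun t => g (σ t) - g t) (FJ J) (𝓝 0) := by
  rw [Metric.tendsto_nhds]
  intro ε hε
  obtain ⟨δ, hδ, h⟩ := Metric.uniformContinuousOn_iff.1 hg ε hε
  filter_upwards [h1, ev_mem, Metric.tendsto_nhds.1 h2 δ hδ] with t ht1 ht2 ht3
  have := h (σ t) ht1 t ht2 (by rw [dist_eq_norm]; simpa [dist_eq_norm] using ht3)
  rwa [dist_zero_right, ← dist_eq_norm]

lemma key (hJ : Admissible J) {P Q R : ℝ → X} (hP : UniformContinuousOn P J)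
    (hQ : UniformContinuousOn Q J) (hR : UniformContinuousOn R J)
    (h0 : ∀ t ∈ J, P t + Real.cos (t ^ 2) • Q t + Real.sin (t ^ 2) • R t = 0) :
    Tendsto R (FJ J) (𝓝 0) := by
  have hpi : (0 : ℝ) ≤ Real.pi := Real.pi_pos.le
  have hpi2 : (0 : ℝ) ≤ Real.pi / 2 := by positivity
  have m1 := sg_mem hJ hpi
  have m2 := sg_mem hJ hpi2
  have dP1 := uc_shift hP m1 (sg_sub hpi)
  have dQ1 := uc_shift hQ m1 (sg_sub hpi)
  have dR1 := uc_shift hR m1 (sg_sub hpi)
  have dP2 := uc_shift hP m2 (sg_sub hpi2)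
  have dQ2 := uc_shift hQ m2 (sg_sub hpi2)
  have dR2 := uc_shift hR m2 (sg_sub hpi2)
  have hcb : ∀ (x : ℝ) (y : X), ‖Real.cos x • y‖ ≤ ‖y‖ := fun x y => by
    rw [norm_smul]
    exact mul_le_of_le_one_left (norm_nonneg _) (Real.abs_cos_le_one x)
  have hsb : ∀ (x : ℝ) (y : X), ‖Real.sin x • y‖ ≤ ‖y‖ := fun x y => by
    rw [norm_smul]
    exact mul_le_of_le_one_left (norm_nonneg _) (Real.abs_sin_le_one x)
  -- first, `P → 0`
  have hP0 : Tendsto P (FJ J) (𝓝 0) := by
    have hb : Tendsto (fun t => ‖P (sg Real.pi t) - P t‖ + ‖Q (sg Real.pi t) - Q t‖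
        + ‖R (sg Real.pi t) - R t‖) (FJ J) (𝓝 0) := by
      simpa using (dP1.norm.add dQ1.norm).add dR1.norm
    refine squeeze_zero_norm' ?_ hb
    filter_upwards [m1, ev_mem] with t ht1 ht2
    have e1 := h0 t ht2
    have e2 := h0 _ ht1
    rw [sg_sq hpi, Real.cos_add_pi, Real.sin_add_pi] at e2
    have e3 : (2 : ℝ) • P t = -(P (sg Real.pi t) - P t)
        + Real.cos (t ^ 2) • (Q (sg Real.pi t) - Q t)
        + Real.sin (t ^ 2) • (R (sg Real.pi t) - R t) := by
      have e4 : (P t + Real.cos (t ^ 2) • Q t + Real.sin (t ^ 2) • R t)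
        + (P (sg Real.pi t) + (-Real.cos (t ^ 2)) • Q (sg Real.pi t)
          + (-Real.sin (t ^ 2)) • R (sg Real.pi t)) = 0 := by rw [e1, e2, add_zero]
      rw [← sub_eq_zero]
      rw [← e4]
      module
    have e5 : ‖(2 : ℝ) • P t‖ ≤ ‖P (sg Real.pi t) - P t‖ + ‖Q (sg Real.pi t) - Q t‖
        + ‖R (sg Real.pi t) - R t‖ := by
      rw [e3]
      refine (norm_add₃_le).trans ?_
      rw [norm_neg]
      gcongr
      · exact hcb _ _
      · exact hsb _ _
    rw [norm_smul] at e5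
    have e6 : ‖(2 : ℝ)‖ = 2 := by norm_num
    rw [e6] at e5
    linarith [norm_nonneg (P t)]
  have hb : Tendsto (fun t => ‖P t‖ + (‖P t‖ + ‖P (sg (Real.pi / 2) t) - P t‖
      + (‖Q (sg (Real.pi / 2) t) - Q t‖ + ‖R (sg (Real.pi / 2) t) - R t‖))) (FJ J) (𝓝 0) := by
    simpa using hP0.norm.add ((hP0.norm.add dP2.norm).add (dQ2.norm.add dR2.norm))
  refine squeeze_zero_norm' ?_ hb
  filter_upwards [m2, ev_mem] with t ht1 ht2
  have e1 := h0 t ht2
  have e2 := h0 _ ht1
  rw [sg_sq hpi2, Real.cos_add_pi_div_two, Real.sin_add_pi_div_two] at e2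
  have hcs : Real.sin (t ^ 2) ^ 2 + Real.cos (t ^ 2) ^ 2 = 1 := Real.sin_sq_add_cos_sq _
  have e3 : R t = -(Real.sin (t ^ 2) • P t)
      + (-(Real.cos (t ^ 2) • (P t + (P (sg (Real.pi / 2) t) - P t)))
      + Real.cos (t ^ 2) • (Real.sin (t ^ 2) • (Q (sg (Real.pi / 2) t) - Q t)
        - Real.cos (t ^ 2) • (R (sg (Real.pi / 2) t) - R t))) := by
    have e4 : R t = (Real.sin (t ^ 2) ^ 2 + Real.cos (t ^ 2) ^ 2) • R t := by rw [hcs, one_smul]
    have e5 : Real.sin (t ^ 2) • (P t + Real.cos (t ^ 2) • Q t + Real.sin (t ^ 2) • R t) +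
      Real.cos (t ^ 2) • (P (sg (Real.pi / 2) t)
        + (-Real.sin (t ^ 2)) • Q (sg (Real.pi / 2) t)
          + (Real.cos (t ^ 2)) • R (sg (Real.pi / 2) t)) = 0 := by
      rw [e1, e2]; simp
    rw [← sub_eq_zero]
    nth_rw 1 [e4]
    rw [← e5]
    module
  refine (congrArg norm e3).le.trans ?_
  refine (norm_add_le _ _).trans ?_
  rw [norm_neg]
  gcongr
  · exact hsb _ _
  refine (norm_add_le _ _).trans ?_
  rw [norm_neg]
  gcongr
  · exact (hcb _ _).trans (norm_add_le _ _)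
  · refine (hcb _ _).trans ((norm_sub_le _ _).trans ?_)
    gcongr
    · exact hsb _ _
    · exact hcb _ _

lemma uc_smul {c : ℝ → ℝ} {v : ℝ → X} {C : ℝ} (hc : UniformContinuousOn c J)
    (hc1 : ∀ t, |c t| ≤ 1) (hv : UniformContinuousOn v J) (hC : ∀ t ∈ J, ‖v t‖ ≤ C) :
    UniformContinuousOn (fun t => c t • v t) J := by
  rw [Metric.uniformContinuousOn_iff] at *
  intro ε hε
  have hC1 : (0 : ℝ) < |C| + 1 := by positivity
  obtain ⟨δ1, hδ1, h1⟩ := hc (ε / 2 / (|C| + 1)) (by positivity)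
  obtain ⟨δ2, hδ2, h2⟩ := hv (ε / 2) (by positivity)
  refine ⟨min δ1 δ2, lt_min hδ1 hδ2, fun x hx y hy hxy => ?_⟩
  have k1 := h1 x hx y hy (lt_of_lt_of_le hxy (min_le_left _ _))
  have k2 := h2 x hx y hy (lt_of_lt_of_le hxy (min_le_right _ _))
  rw [dist_eq_norm] at *
  have e : c x • v x - c y • v y = (c x - c y) • v x + c y • (v x - v y) := by module
  rw [e]
  refine (norm_add_le _ _).trans_lt ?_
  rw [norm_smul, norm_smul]
  have k3 : ‖v x‖ ≤ |C| + 1 := (hC x hx).trans ((le_abs_self C).trans (by linarith))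
  have k4 : ‖c x - c y‖ * ‖v x‖ ≤ ε / 2 / (|C| + 1) * (|C| + 1) := by gcongr
  rw [div_mul_cancel₀ _ hC1.ne'] at k4
  have k5 : ‖c y‖ * ‖v x - v y‖ ≤ 1 * ‖v x - v y‖ := by
    gcongr
    exact hc1 y
  linarith

lemma ucadd {u v : ℝ → X} (hu : UniformContinuousOn u J) (hv : UniformContinuousOn v J) :
    UniformContinuousOn (fun t => u t + v t) J := by
  rw [uniformContinuousOn_iff_restrict] at *
  exact hu.add hv

lemma ucsub {u v : ℝ → X} (hu : UniformContinuousOn u J) (hv : UniformContinuousOn v J) :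
    UniformContinuousOn (fun t => u t - v t) J := by
  rw [uniformContinuousOn_iff_restrict] at *
  exact hu.sub hv

lemma ucneg {u : ℝ → X} (hu : UniformContinuousOn u J) :
    UniformContinuousOn (fun t => -u t) J := by
  rw [uniformContinuousOn_iff_restrict] at *
  exact hu.neg

lemma uc_comp_add {E : Type*} [PseudoMetricSpace E] (hJ : Admissible J) {v : ℝ → E}
    (hv : UniformContinuousOn v J) {a : ℝ} (ha : 0 < a) :
    UniformContinuousOn (fun t => v (t + a)) J := by
  rw [Metric.uniformContinuousOn_iff] at *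
  intro ε hε
  obtain ⟨δ, hδ, h⟩ := hv ε hε
  refine ⟨δ, hδ, fun x hx y hy hxy => ?_⟩
  exact h _ (adm_up hJ hx (by linarith)) _ (adm_up hJ hy (by linarith)) (by simpa using hxy)

lemma uc_affine (f : ℝ → ℝ) (hf : LipschitzWith 1 f) (m k : ℝ) :
    UniformContinuousOn (fun t => f (m * t + k)) J := by
  have h1 : UniformContinuous (fun t : ℝ => f (m * t + k)) := by
    refine hf.uniformContinuous.comp ?_
    have : LipschitzWith ‖m‖₊ (fun t : ℝ => m * t + k) := by
      refine LipschitzWith.of_dist_le_mul fun x y => ?_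
      rw [Real.dist_eq, Real.dist_eq]
      have : m * x + k - (m * y + k) = m * (x - y) := by ring
      rw [this, abs_mul]
      rfl
    exact this.uniformContinuous
  exact h1.uniformContinuousOn

lemma lip_cos : LipschitzWith 1 Real.cos := by
  refine lipschitzWith_of_nnnorm_deriv_le Real.differentiable_cos fun x => ?_
  rw [← NNReal.coe_le_coe]
  simp [Real.abs_sin_le_one]

lemma lip_sin : LipschitzWith 1 Real.sin := by
  refine lipschitzWith_of_nnnorm_deriv_le Real.differentiable_sin fun x => ?_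
  rw [← NNReal.coe_le_coe]
  simp [Real.abs_cos_le_one]

/-- the `v`-part of every difference vanishes at infinity -/
lemma van (hJ : Admissible J) {f : ℝ → X} {U V : ℝ → ℝ → X}
    (hU : ∀ a, 0 < a → IsBUC J (U a)) (hV : ∀ a, 0 < a → IsBUC J (V a))
    (hf : ∀ a, 0 < a → ∀ t ∈ J, f (t + a) - f t = U a t + Real.cos (t ^ 2) • V a t)
    {b : ℝ} (hb : 0 < b) : Tendsto (V b) (FJ J) (𝓝 0) := by
  have hsin : ∀ a : ℝ, 0 < a →
      Tendsto (fun s => Real.sin (2 * a * s - a ^ 2) • V b s) (FJ J) (𝓝 0) := by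
    intro a ha
    have hab : 0 < a + b := by linarith
    obtain ⟨uVa, Ca, hCa⟩ := hV a ha
    obtain ⟨uVb, Cb, hCb⟩ := hV b hb
    obtain ⟨uVab, Cab, hCab⟩ := hV (a + b) hab
    obtain ⟨uUa, -⟩ := hU a ha
    obtain ⟨uUb, -⟩ := hU b hb
    obtain ⟨uUab, -⟩ := hU (a + b) hab
    have hVs : UniformContinuousOn (fun t => V b (t + a)) J := uc_comp_add hJ uVb ha
    have hUs : UniformContinuousOn (fun t => U b (t + a)) J := uc_comp_add hJ uUb ha
    have hCs : ∀ t ∈ J, ‖V b (t + a)‖ ≤ Cb := fun t ht => hCb _ (adm_up hJ ht (by linarith))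
    have hcosV := uc_smul (uc_affine (J := J) Real.cos lip_cos (2 * a) (a ^ 2))
      (fun t => Real.abs_cos_le_one _) hVs hCs
    have hsinV := uc_smul (uc_affine (J := J) Real.sin lip_sin (2 * a) (a ^ 2))
      (fun t => Real.abs_sin_le_one _) hVs hCs
    have hR := key hJ (P := fun t => U a t + U b (t + a) - U (a + b) t)
      (Q := fun t => V a t + Real.cos (2 * a * t + a ^ 2) • V b (t + a) - V (a + b) t)
      (R := fun t => -(Real.sin (2 * a * t + a ^ 2) • V b (t + a)))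
      (ucsub (ucadd uUa hUs) uUab) (ucsub (ucadd uVa hcosV) uVab) (ucneg hsinV) ?_
    · have h1 := (hR.comp (tendsto_sub_FJ hJ a)).neg
      rw [neg_zero] at h1
      refine h1.congr fun s => ?_
      simp only [Function.comp_apply, neg_neg, sub_add_cancel]
      congr 2
      ring
    · intro t ht
      have e1 := hf a ha t ht
      have e2 := hf b hb (t + a) (adm_up hJ ht (by linarith))
      have e3 := hf (a + b) hab t ht
      have e4 : Real.cos ((t + a) ^ 2) = Real.cos (t ^ 2) * Real.cos (2 * a * t + a ^ 2)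
          - Real.sin (t ^ 2) * Real.sin (2 * a * t + a ^ 2) := by
        rw [← Real.cos_add]
        congr 1
        ring
      rw [e4] at e2
      have e5 : f (t + (a + b)) - f t = (f (t + a) - f t) + (f (t + a + b) - f (t + a)) := by
        rw [← add_assoc]; abel
      rw [e1, e2, e3] at e5
      rw [← sub_eq_zero] at e5
      rw [← neg_eq_zero, ← e5]
      module
  have hc : (0 : ℝ) < √(Real.pi) / 2 := by
    have := Real.sqrt_pos.2 Real.pi_pos
    positivity
  obtain ⟨a, ha⟩ : ∃ a : ℝ, a = √(Real.pi) / 2 := ⟨_, rfl⟩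
  rw [← ha] at hc
  have ha2 : 2 * a ^ 2 = Real.pi / 2 := by
    rw [ha, div_pow, Real.sq_sqrt Real.pi_pos.le]; ring
  have h1 := (hsin a hc).norm
  have h2 := (hsin (2 * a) (by linarith)).norm
  rw [norm_zero] at h1 h2
  have hb' : Tendsto (fun s => 2 * ‖Real.sin (2 * a * s - a ^ 2) • V b s‖
      + ‖Real.sin (2 * (2 * a) * s - (2 * a) ^ 2) • V b s‖) (FJ J) (𝓝 0) := by
    simpa using (h1.const_mul 2).add h2
  refine squeeze_zero_norm (fun s => ?_) hb'
  have e1 : 2 * (2 * a) * s - (2 * a) ^ 2 = 2 * (2 * a * s - a ^ 2) - Real.pi / 2 := by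
    rw [← ha2]; ring
  have e2 : Real.sin (2 * (2 * a) * s - (2 * a) ^ 2)
      = 2 * Real.sin (2 * a * s - a ^ 2) ^ 2 - 1 := by
    rw [e1, Real.sin_sub_pi_div_two, Real.cos_two_mul, Real.cos_sq']
    ring
  have e3 : V b s = (2 * Real.sin (2 * a * s - a ^ 2)) • (Real.sin (2 * a * s - a ^ 2) • V b s)
      - Real.sin (2 * (2 * a) * s - (2 * a) ^ 2) • V b s := by
    rw [e2]
    module
  refine (congrArg norm e3).le.trans ((norm_sub_le _ _).trans ?_)
  gcongr
  rw [norm_smul (2 * Real.sin (2 * a * s - a ^ 2))]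
  gcongr
  rw [norm_mul]
  have := Real.abs_sin_le_one (2 * a * s - a ^ 2)
  rw [Real.norm_eq_abs, Real.norm_eq_abs, abs_of_pos (by norm_num : (0 : ℝ) < 2)]
  linarith

/-- if `v → 0` at infinity then `cos(t^2) v(t)` is uniformly continuous -/
lemma uc_cosv {v : ℝ → X} (hv : IsBUC J v) (h0 : Tendsto v (FJ J) (𝓝 0)) :
    IsBUC J (fun t => Real.cos (t ^ 2) • v t) := by
  obtain ⟨huc, C, hC⟩ := hv
  refine ⟨?_, C, fun t ht => ?_⟩
  · rw [Metric.uniformContinuousOn_iff] at *
    intro ε hε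
    obtain ⟨T, hT⟩ := ev_FJ.1 (Metric.tendsto_nhds.1 h0 (ε / 2) (by positivity))
    have hC1 : (0 : ℝ) < |C| + 1 := by positivity
    have hT1 : (0 : ℝ) < 2 * (|T| + 1) := by positivity
    obtain ⟨δ, hδ, h⟩ := huc (ε / 2) (by positivity)
    refine ⟨min 1 (min δ (ε / 2 / (|C| + 1) / (2 * (|T| + 1)))),
      lt_min one_pos (lt_min hδ (by positivity)), fun x hx y hy hxy => ?_⟩
    have k1 : dist x y < 1 := lt_of_lt_of_le hxy (min_le_left _ _)
    have k2 : dist x y < δ := lt_of_lt_of_le hxy ((min_le_right _ _).trans (min_le_left _ _))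
    have k3 : dist x y < ε / 2 / (|C| + 1) / (2 * (|T| + 1)) :=
      lt_of_lt_of_le hxy ((min_le_right _ _).trans (min_le_right _ _))
    have hcb : ∀ (x : ℝ) (y : X), ‖Real.cos x • y‖ ≤ ‖y‖ := fun x y => by
      rw [norm_smul]
      exact mul_le_of_le_one_left (norm_nonneg _) (Real.abs_cos_le_one x)
    rw [dist_eq_norm]
    by_cases hcase : |x| ≤ |T| + 1 ∧ |y| ≤ |T| + 1
    · have e : Real.cos (x ^ 2) • v x - Real.cos (y ^ 2) • v y
          = (Real.cos (x ^ 2) - Real.cos (y ^ 2)) • v x + Real.cos (y ^ 2) • (v x - v y) := by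
        module
      rw [e]
      refine (norm_add_le _ _).trans_lt ?_
      rw [norm_smul]
      have k4 := hcb (y ^ 2) (v x - v y)
      have k5 : ‖v x - v y‖ < ε / 2 := by rw [← dist_eq_norm]; exact h x hx y hy k2
      have k6 : ‖Real.cos (x ^ 2) - Real.cos (y ^ 2)‖ ≤ |x - y| * (2 * (|T| + 1)) := by
        have := lip_cos.dist_le_mul (x ^ 2) (y ^ 2)
        rw [Real.dist_eq, Real.dist_eq, NNReal.coe_one, one_mul] at this
        refine this.trans ?_
        have e2 : x ^ 2 - y ^ 2 = (x - y) * (x + y) := by ring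
        rw [e2, abs_mul]
        gcongr
        exact (abs_add_le x y).trans (by linarith [hcase.1, hcase.2])
      have k7 : ‖v x‖ ≤ |C| + 1 := (hC x hx).trans ((le_abs_self C).trans (by linarith))
      have k8 : |x - y| * (2 * (|T| + 1)) ≤ ε / 2 / (|C| + 1) := by
        rw [← le_div_iff₀ hT1, ← Real.dist_eq]
        exact k3.le
      have k9 : ‖Real.cos (x ^ 2) - Real.cos (y ^ 2)‖ * ‖v x‖
          ≤ ε / 2 / (|C| + 1) * (|C| + 1) := by
        gcongr
        exact k6.trans k8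
      rw [div_mul_cancel₀ _ hC1.ne'] at k9
      linarith
    · have hxT : T ≤ |x| ∧ T ≤ |y| := by
        have e1 : |x| - |y| ≤ |x - y| := abs_sub_abs_le_abs_sub x y
        have e2 : |y| - |x| ≤ |y - x| := abs_sub_abs_le_abs_sub y x
        rw [abs_sub_comm y x] at e2
        rw [Real.dist_eq] at k1
        have e3 := le_abs_self T
        rw [not_and_or, not_le, not_le] at hcase
        rcases hcase with hh | hh
        · constructor <;> linarith
        · constructor <;> linarith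
      have q1 := hT x hx hxT.1
      have q2 := hT y hy hxT.2
      rw [dist_zero_right] at q1 q2
      refine (norm_sub_le _ _).trans_lt ?_
      have := hcb (x ^ 2) (v x)
      have := hcb (y ^ 2) (v y)
      linarith
  · refine le_trans ?_ (hC t ht)
    rw [norm_smul]
    exact mul_le_of_le_one_left (norm_nonneg _) (Real.abs_cos_le_one _)

lemma buc_add {u v : ℝ → X} (hu : IsBUC J u) (hv : IsBUC J v) : IsBUC J (fun t => u t + v t) := by
  obtain ⟨u1, C1, h1⟩ := hu
  obtain ⟨u2, C2, h2⟩ := hv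
  exact ⟨ucadd u1 u2, C1 + C2, fun t ht => (norm_add_le _ _).trans (add_le_add (h1 t ht) (h2 t ht))⟩

lemma buc_congr {u v : ℝ → X} (hu : IsBUC J u) (h : ∀ t ∈ J, v t = u t) : IsBUC J v := by
  obtain ⟨u1, C1, h1⟩ := hu
  refine ⟨?_, C1, fun t ht => by rw [h t ht]; exact h1 t ht⟩
  exact u1.congr fun t ht => (h t ht).symm

lemma zero_buc : IsBUC J (fun _ => (0 : X)) :=
  ⟨uniformContinuous_const.uniformContinuousOn, 0, fun t _ => by simp⟩

lemma acos_of_buc {u : ℝ → X} (hu : IsBUC J u) : IsACos J u :=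
  ⟨u, fun _ => 0, hu, zero_buc, fun t _ => by simp⟩

/-- all differences are in `BUC` -/
lemma diff_buc (hJ : Admissible J) {f : ℝ → X}
    (hf : ∀ a : ℝ, 0 < a → IsACos J (fun t => f (t + a) - f t)) {b : ℝ} (hb : 0 < b) :
    IsBUC J (fun t => f (t + b) - f t) := by
  have h' : ∀ a : ℝ, ∃ u v : ℝ → X, 0 < a → (IsBUC J u ∧ IsBUC J v ∧
      ∀ t ∈ J, f (t + a) - f t = u t + Real.cos (t ^ 2) • v t) := by
    intro a
    by_cases ha : 0 < a
    · obtain ⟨u, v, h⟩ := hf a ha
      exact ⟨u, v, fun _ => h⟩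
    · exact ⟨0, 0, fun h => absurd h ha⟩
  choose U V hUV using h'
  have hvan := van hJ (fun a ha => (hUV a ha).1) (fun a ha => (hUV a ha).2.1)
    (fun a ha => (hUV a ha).2.2) hb
  obtain ⟨h1, h2, h3⟩ := hUV b hb
  exact buc_congr (buc_add h1 (uc_cosv h2 hvan)) h3

lemma l1_int (hJ : Admissible J) {f : ℝ → X} (hf : IsL1loc J f) {t : ℝ} (ht : t ∈ J) {a b : ℝ}
    (ha : 0 ≤ a) (hab : a ≤ b) : IntervalIntegrable (fun s => f (t + s)) volume a b := by
  have h1 : IntervalIntegrable f volume (t + a) (t + b) := by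
    rw [intervalIntegrable_iff_integrableOn_Icc_of_le (by linarith)]
    exact hf _ (adm_up hJ ht (by linarith)) _ (adm_up hJ ht (by linarith))
  have h2 := h1.comp_add_left t
  simpa using h2

/-- local boundedness of the differences (Steinhaus) -/
lemma loc_bdd (hJ : Admissible J) {f : ℝ → X} (hf : IsL1loc J f)
    (hd : ∀ a : ℝ, 0 < a → IsBUC J (fun t => f (t + a) - f t)) (h : ℝ) :
    ∃ K : ℝ, ∀ s : ℝ, 0 < s → s ≤ h → ∀ t ∈ J, ‖f (t + s) - f t‖ ≤ K := by
  obtain ⟨μ, hμ⟩ : ∃ μ : Measure ℝ, μ = volume.restrict (Ioo (1 : ℝ) 2) := ⟨_, rfl⟩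
  obtain ⟨G, hG⟩ : ∃ G : ℕ → Set ℝ, ∀ n s, s ∈ G n ↔
      ∀ q : ℚ, (q : ℝ) ∈ J → ‖f ((q : ℝ) + s) - f q‖ ≤ n :=
    ⟨fun n => {s | ∀ q : ℚ, (q : ℝ) ∈ J → ‖f ((q : ℝ) + s) - f q‖ ≤ n}, fun _ _ => Iff.rfl⟩
  have hGm : ∀ n, NullMeasurableSet (G n) μ := by
    intro n
    have e : G n = ⋂ q : ℚ, {s | (q : ℝ) ∈ J → ‖f ((q : ℝ) + s) - f q‖ ≤ n} := by
      ext s
      rw [hG, mem_iInter]
      rfl
    rw [e]
    refine NullMeasurableSet.iInter fun q => ?_
    by_cases hq : (q : ℝ) ∈ J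
    · have e2 : {s | (q : ℝ) ∈ J → ‖f ((q : ℝ) + s) - f q‖ ≤ n}
          = {s | ‖f ((q : ℝ) + s) - f q‖ ≤ n} := by
        ext s
        simp [hq]
      rw [e2]
      have h1 := (l1_int hJ hf hq (a := 1) (b := 2) (by norm_num) (by norm_num)).1
      have h2 : AEStronglyMeasurable (fun s => f ((q : ℝ) + s)) μ := by
        rw [hμ]
        exact h1.aestronglyMeasurable.mono_measure
          (Measure.restrict_mono Ioo_subset_Ioc_self le_rfl)
      exact nullMeasurableSet_le (h2.sub aestronglyMeasurable_const).norm.aemeasurable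
        aemeasurable_const
    · have e2 : {s | (q : ℝ) ∈ J → ‖f ((q : ℝ) + s) - f q‖ ≤ n} = univ := by
        ext s
        simp [hq]
      rw [e2]
      exact nullMeasurableSet_univ
  have hGu : Ioo (1 : ℝ) 2 ⊆ ⋃ n, G n := by
    intro s hs
    obtain ⟨-, C, hC⟩ := hd s (by linarith [hs.1])
    obtain ⟨n, hn⟩ := exists_nat_ge C
    exact mem_iUnion.2 ⟨n, (hG n s).2 fun q hq => (hC q hq).trans hn⟩
  have hpos : ∃ n, 0 < μ (G n) := by
    by_contra hcon
    push Not at hcon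
    have h1 : μ (⋃ n, G n) = 0 := measure_iUnion_null fun n => le_antisymm (hcon n) zero_le
    have h2 : μ (Ioo (1 : ℝ) 2) = 0 := measure_mono_null hGu h1
    rw [hμ, Measure.restrict_apply_self, Real.volume_Ioo] at h2
    norm_num at h2
  obtain ⟨n, hn⟩ := hpos
  obtain ⟨E, hEG, hEm, hEae⟩ := (hGm n).exists_measurable_subset_ae_eq
  have hE1 : 0 < volume (E ∩ Ioo (1 : ℝ) 2) := by
    rw [← measure_congr hEae, hμ, Measure.restrict_apply hEm] at hn
    exact hn
  have hnh := Measure.sub_mem_nhds_zero_of_addHaar_pos volume (E ∩ Ioo (1 : ℝ) 2)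
    (hEm.inter measurableSet_Ioo) hE1
  obtain ⟨δ, hδ, hball⟩ := Metric.mem_nhds_iff.1 hnh
  -- the bound on all of `J`
  have hEb : ∀ s ∈ E ∩ Ioo (1 : ℝ) 2, ∀ t ∈ J, ‖f (t + s) - f t‖ ≤ n := by
    intro s hs t ht
    have hs1 := (hG n s).1 (hEG hs.1)
    obtain ⟨huc, -⟩ := hd s (by linarith [hs.2.1])
    refine le_of_forall_pos_le_add fun ε hε => ?_
    obtain ⟨η, hη, h2⟩ := Metric.uniformContinuousOn_iff.1 huc ε hε
    obtain ⟨q, hq1, hq2⟩ := exists_rat_btwn (show t < t + η by linarith)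
    have hqJ : (q : ℝ) ∈ J := adm_up hJ ht hq1.le
    have h3 := h2 t ht q hqJ (by
      rw [Real.dist_eq, abs_sub_comm, abs_of_pos (by linarith)]
      linarith)
    have h4 := hs1 q hqJ
    rw [dist_eq_norm] at h3
    have h5 : ‖f (t + s) - f t‖ ≤ ‖f (t + s) - f t - (f (q + s) - f q)‖ + ‖f (q + s) - f q‖ := by
      have := norm_add_le (f (t + s) - f t - (f (q + s) - f q)) (f (q + s) - f q)
      rwa [sub_add_cancel] at this
    linarith
  obtain ⟨-, C2, hC2⟩ := hd 2 (by norm_num)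
  obtain ⟨K, hK⟩ : ∃ K : ℝ, K = |C2| + (n + n) + |C2| := ⟨_, rfl⟩
  have hK0 : 0 ≤ K := by rw [hK]; positivity
  have hsmall : ∀ r : ℝ, 0 < r → r < δ → ∀ t ∈ J, ‖f (t + r) - f t‖ ≤ K := by
    intro r hr0 hrδ t ht
    have hr : r ∈ E ∩ Ioo (1 : ℝ) 2 - E ∩ Ioo (1 : ℝ) 2 := hball (by
      rw [Metric.mem_ball, dist_zero_right, Real.norm_eq_abs, abs_of_pos hr0]
      exact hrδ)
    obtain ⟨s, hs, s', hs', hss⟩ := Set.mem_sub.1 hr
    have hw : t + 2 - s' ∈ J := adm_up hJ ht (by linarith [hs'.2.2])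
    have b1 := hEb s hs _ hw
    have b2 := hEb s' hs' _ hw
    have b3 := (hC2 t ht).trans (le_abs_self C2)
    have b4 := (hC2 (t + r) (adm_up hJ ht (by linarith))).trans (le_abs_self C2)
    have e1 : t + 2 - s' + s = t + r + 2 := by linarith
    have e2 : t + 2 - s' + s' = t + 2 := by ring
    rw [e1] at b1
    rw [e2] at b2
    have e3 : f (t + r) - f t = (-(f (t + r + 2) - f (t + r))
        + ((f (t + r + 2) - f (t + 2 - s')) - (f (t + 2) - f (t + 2 - s'))))
        + (f (t + 2) - f t) := by abel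
    rw [e3, hK]
    refine (norm_add_le _ _).trans (add_le_add ((norm_add_le _ _).trans
      (add_le_add ?_ ((norm_sub_le _ _).trans (add_le_add b1 b2)))) b3)
    rw [norm_neg]
    exact b4
  have hN : ∀ N : ℕ, ∀ r : ℝ, 0 < r → r ≤ (N + 1) * (δ / 2) → ∀ t ∈ J,
      ‖f (t + r) - f t‖ ≤ (N + 1) * K := by
    intro N
    induction N with
    | zero =>
      intro r hr hr2 t ht
      have := hsmall r hr (by push_cast at hr2; linarith) t ht
      push_cast
      linarith
    | succ N ih =>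
      intro r hr hr2 t ht
      push_cast at hr2 ⊢
      by_cases hcase : r ≤ (N + 1) * (δ / 2)
      · have := ih r hr hcase t ht
        linarith
      · push Not at hcase
        have hN0 : (0 : ℝ) ≤ N := Nat.cast_nonneg N
        have hr3 : 0 < r - δ / 2 := by nlinarith
        have h1 := ih (r - δ / 2) hr3 (by linarith) t ht
        have h2 := hsmall (δ / 2) (by linarith) (by linarith) (t + (r - δ / 2))
          (adm_up hJ ht (by linarith))
        have e : t + (r - δ / 2) + δ / 2 = t + r := by ring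
        rw [e] at h2
        have h3 := norm_add_le (f (t + r) - f (t + (r - δ / 2))) (f (t + (r - δ / 2)) - f t)
        rw [sub_add_sub_cancel] at h3
        linarith
  obtain ⟨N, hN1⟩ := exists_nat_ge (h / (δ / 2))
  refine ⟨(N + 1) * K, fun s hs hsh t ht => hN N s hs ?_ t ht⟩
  rw [div_le_iff₀ (by linarith)] at hN1
  have : (N : ℝ) * (δ / 2) ≤ (N + 1) * (δ / 2) := by
    have : (0 : ℝ) < δ / 2 := by linarith
    nlinarith
  linarith

lemma mh_eq [CompleteSpace X] (hJ : Admissible J) {f : ℝ → X} (hf : IsL1loc J f) {h : ℝ} (hh : 0 < h) {t : ℝ}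
    (ht : t ∈ J) : f t - (1 / h) • ∫ s in t..(t + h), f s
      = -((1 / h) • ∫ s in (0 : ℝ)..h, (f (t + s) - f t)) := by
  have h1 := l1_int hJ hf ht le_rfl hh.le
  rw [intervalIntegral.integral_sub h1 intervalIntegrable_const,
    intervalIntegral.integral_comp_add_left (fun x => f x) t, intervalIntegral.integral_const,
    sub_zero, smul_sub, smul_smul, one_div, inv_mul_cancel₀ hh.ne', one_smul, add_zero]
  abel

/-- `BUC(J,X)` satisfies `(Δ)` -/
lemma buc_delta [CompleteSpace X] (hJ : Admissible J) {f : ℝ → X} (hf : IsL1loc J f)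
    (hd : ∀ a : ℝ, 0 < a → IsBUC J (fun t => f (t + a) - f t)) {h : ℝ} (hh : 0 < h) :
    IsBUC J (fun t => f t - (1 / h) • ∫ s in t..(t + h), f s) := by
  obtain ⟨K, hK⟩ := loc_bdd hJ hf hd h
  constructor
  · rw [Metric.uniformContinuousOn_iff]
    intro ε hε
    by_contra hcon
    push Not at hcon
    have hx : ∀ n : ℕ, ∃ x y : ℝ, x ∈ J ∧ y ∈ J ∧ dist x y < 1 / ((n : ℝ) + 1) ∧
        ε ≤ dist (f x - (1 / h) • ∫ s in x..(x + h), f s)
          (f y - (1 / h) • ∫ s in y..(y + h), f s) := by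
      intro n
      obtain ⟨x, hx, y, hy, h1, h2⟩ := hcon (1 / ((n : ℝ) + 1)) (by positivity)
      exact ⟨x, y, hx, hy, h1, h2⟩
    choose x y hxJ hyJ hxy hge using hx
    have hlim : Tendsto (fun n => ∫ s in (0 : ℝ)..h,
        ((f (x n + s) - f (x n)) - (f (y n + s) - f (y n)))) atTop
        (𝓝 (∫ _ in (0 : ℝ)..h, (0 : X))) := by
      refine intervalIntegral.tendsto_integral_filter_of_dominated_convergence (fun _ => K + K)
        ?_ ?_ intervalIntegrable_const ?_
      · refine Eventually.of_forall fun n => ?_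
        have h1 := (l1_int hJ hf (hxJ n) le_rfl hh.le).1.aestronglyMeasurable
        have h2 := (l1_int hJ hf (hyJ n) le_rfl hh.le).1.aestronglyMeasurable
        rw [uIoc_of_le hh.le]
        exact (h1.sub aestronglyMeasurable_const).sub (h2.sub aestronglyMeasurable_const)
      · refine Eventually.of_forall fun n => Eventually.of_forall fun s hs => ?_
        rw [uIoc_of_le hh.le] at hs
        exact (norm_sub_le _ _).trans (add_le_add (hK s hs.1 hs.2 _ (hxJ n))
          (hK s hs.1 hs.2 _ (hyJ n)))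
      · refine Eventually.of_forall fun s hs => ?_
        rw [uIoc_of_le hh.le] at hs
        obtain ⟨huc, -⟩ := hd s hs.1
        rw [Metric.uniformContinuousOn_iff] at huc
        rw [Metric.tendsto_atTop]
        intro η hη
        obtain ⟨δ, hδ, h3⟩ := huc η hη
        obtain ⟨N, hN⟩ := exists_nat_one_div_lt hδ
        refine ⟨N, fun n hn => ?_⟩
        rw [dist_zero_right, ← dist_eq_norm]
        refine h3 _ (hxJ n) _ (hyJ n) ((hxy n).trans_le (le_trans ?_ hN.le))
        have : (N : ℝ) ≤ n := by exact_mod_cast hn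
        exact one_div_le_one_div_of_le (by positivity) (by linarith)
    rw [intervalIntegral.integral_zero] at hlim
    have hlim2 := (hlim.const_smul (1 / h)).norm
    rw [smul_zero, norm_zero] at hlim2
    obtain ⟨n, hn⟩ := (hlim2.eventually_lt_const hε).exists
    have hgen := hge n
    rw [mh_eq hJ hf hh (hxJ n), mh_eq hJ hf hh (hyJ n), dist_eq_norm] at hgen
    have i1 := (l1_int hJ hf (hxJ n) le_rfl hh.le).sub
      (intervalIntegrable_const (c := f (x n)) (μ := volume))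
    have i2 := (l1_int hJ hf (hyJ n) le_rfl hh.le).sub
      (intervalIntegrable_const (c := f (y n)) (μ := volume))
    rw [intervalIntegral.integral_sub i1 i2, smul_sub] at hn
    rw [← norm_neg, neg_sub, sub_neg_eq_add, neg_add_eq_sub] at hgen
    linarith
  · refine ⟨|K| , fun t ht => ?_⟩
    beta_reduce
    rw [mh_eq hJ hf hh ht, norm_neg, norm_smul]
    have h1 : ‖∫ s in (0 : ℝ)..h, (f (t + s) - f t)‖ ≤ |K| * |h - 0| := by
      refine intervalIntegral.norm_integral_le_of_norm_le_const fun s hs => ?_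
      rw [uIoc_of_le hh.le] at hs
      exact (hK s hs.1 hs.2 t ht).trans (le_abs_self K)
    rw [sub_zero, abs_of_pos hh] at h1
    rw [Real.norm_eq_abs, abs_of_pos (by positivity), one_div, inv_mul_le_iff₀ hh]
    linarith

lemma mh_buc (hJ : Admissible J) {f : ℝ → X} (hf : IsL1loc J f) {C : ℝ}
    (hC : ∀ t ∈ J, ‖f t‖ ≤ C) : IsBUC J (fun t => (1 / (1 : ℝ)) • ∫ s in t..(t + 1), f s) := by
  have hC0 : ∀ t ∈ J, ‖f t‖ ≤ |C| := fun t ht => (hC t ht).trans (le_abs_self C)
  have hint : ∀ a ∈ J, ∀ b ∈ J, IntervalIntegrable f volume a b := by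
    intro a ha b hb
    constructor
    · exact (hf a ha b hb).mono_set Ioc_subset_Icc_self
    · exact (hf b hb a ha).mono_set Ioc_subset_Icc_self
  have hbd : ∀ a ∈ J, ∀ b ∈ J, ‖∫ s in a..b, f s‖ ≤ |C| * |b - a| := by
    intro a ha b hb
    refine intervalIntegral.norm_integral_le_of_norm_le_const fun s hs => hC0 s ?_
    rw [uIoc, mem_Ioc] at hs
    rcases min_choice a b with h | h
    · rw [h] at hs
      exact adm_up hJ ha hs.1.le
    · rw [h] at hs
      exact adm_up hJ hb hs.1.le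
  have hup : ∀ t ∈ J, t + 1 ∈ J := fun t ht => adm_up hJ ht (by linarith)
  constructor
  · rw [Metric.uniformContinuousOn_iff]
    intro ε hε
    have hC1 : (0 : ℝ) < 2 * |C| + 1 := by positivity
    refine ⟨ε / (2 * |C| + 1), by positivity, fun x hx y hy hxy => ?_⟩
    have e : (∫ s in x..(x + 1), f s) - ∫ s in y..(y + 1), f s
        = (∫ s in x..y, f s) - ∫ s in (x + 1)..(y + 1), f s := by
      rw [intervalIntegral.integral_interval_sub_interval_comm (hint _ hx _ (hup _ hx))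
        (hint _ hy _ (hup _ hy)) (hint _ hx _ hy)]
    rw [dist_eq_norm, div_one, one_smul, one_smul, e]
    refine (norm_sub_le _ _).trans_lt ?_
    have b1 := hbd x hx y hy
    have b2 := hbd (x + 1) (hup _ hx) (y + 1) (hup _ hy)
    rw [add_sub_add_right_eq_sub] at b2
    rw [Real.dist_eq, abs_sub_comm, lt_div_iff₀ hC1] at hxy
    nlinarith [abs_nonneg (y - x), abs_nonneg C]
  · refine ⟨|C| * 1, fun t ht => ?_⟩
    have b1 := hbd t ht (t + 1) (hup _ ht)
    beta_reduce
    rw [div_one, one_smul]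
    simpa using b1

theorem result {X : Type*} [NormedAddCommGroup X] [NormedSpace ℝ X] [CompleteSpace X]
    {J : Set ℝ} (hJ : Admissible J) :
    SatDelta J (fun g : ℝ → X => IsACos J g) ∧ SatLb J (fun g : ℝ → X => IsACos J g) := by
  constructor
  · intro f hf hd h hh
    exact acos_of_buc (buc_delta hJ hf (fun a ha => diff_buc hJ hd ha) hh)
  · intro f hf hd
    obtain ⟨hm, C, hC⟩ := hf
    have hl : IsL1loc J f := by
      intro a ha b hb
      have hsub : Icc a b ⊆ J := fun s hs => adm_up hJ ha hs.1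
      exact Integrable.of_bound (hm.mono_set hsub) C
        ((ae_restrict_iff' measurableSet_Icc).2 (Eventually.of_forall fun s hs =>
          hC s (hsub hs)))
    have h1 := buc_delta hJ hl (fun a ha => diff_buc hJ hd ha) one_pos
    have h2 := mh_buc hJ hl hC
    refine acos_of_buc (buc_congr (buc_add h1 h2) fun t _ => ?_)
    exact (sub_add_cancel _ _).symm

end Pool.Agent.Results.MP_ee4cf4_an.CosSquare
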